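import Mathlib

/-!
# Revision cardinals (MP_63fc39_lc): definitions and the covering lemma
-/

set_option autoImplicit false

namespace Pool.Agent.RevCard

open Cardinal Set Order

universe u

/-- `X ⊆ P_{ρ₂}(α)` and every `b ∈ P_{ρ₃}(α)` is covered by fewer than `ρ₄` members of `X` -/
def IsCover (α : Type u) (ρ₂ ρ₃ ρ₄ : Cardinal.{u}) (X : Set (Set α)) : Prop :=
  (∀ x ∈ X, #x < ρ₂) ∧
    ∀ b : Set α, #b < ρ₃ → ∃ Q : Set (Set α), Q ⊆ X ∧ #Q < ρ₄ ∧ b ⊆ ⋃₀ Q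

/-- the covering number `cov(ρ₁, ρ₂, ρ₃, ρ₄)`: the least cardinality of such an `X`, for a set
(here the type `ρ₁.out`) of cardinality `ρ₁` -/
noncomputable def cov (ρ₁ ρ₂ ρ₃ ρ₄ : Cardinal.{u}) : Cardinal.{u} :=
  sInf {c | ∃ X : Set (Set ρ₁.out), IsCover ρ₁.out ρ₂ ρ₃ ρ₄ X ∧ #X = c}

/-- `χ` is a `lam`-revision cardinal -/
def IsRev (lam χ : Cardinal.{u}) : Prop := ∃ σ : Cardinal.{u}, 2 ≤ σ ∧ σ < χ ∧ cov lam χ χ σ ≤ lam

/-- the exceptional cardinals of `χ` and `lam`: the regular `κ < χ` such that `κ⁺` is not a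
`lam`-revision cardinal -/
def Exc (χ lam : Cardinal.{u}) : Set Cardinal.{u} :=
  {κ | κ.IsRegular ∧ κ < χ ∧ ¬ IsRev lam (succ κ)}

/-! ## A convenient form -/

/-- covers of size `c` of the subsets of size at most `κ`, by fewer than `κ` sets -/
def Cv (α : Type u) (κ c : Cardinal.{u}) : Prop :=
  ∃ X : Set (Set α), #X ≤ c ∧ (∀ x ∈ X, #x ≤ κ) ∧
    ∀ b : Set α, #b ≤ κ → ∃ Q : Set (Set α), Q ⊆ X ∧ #Q < κ ∧ b ⊆ ⋃₀ Q

theorem Cv.mono {α β : Type u} {κ c c' : Cardinal.{u}} (h : Cv β κ c) (hα : #α ≤ #β)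
    (hc : c ≤ c') : Cv α κ c' := by
  obtain ⟨f⟩ := Cardinal.le_def α β |>.mp hα
  obtain ⟨X, h1, h2, h3⟩ := h
  refine ⟨(fun x : Set β => f ⁻¹' x) '' X, (mk_image_le.trans h1).trans hc, ?_, ?_⟩
  · rintro _ ⟨x, hx, rfl⟩
    exact (mk_preimage_of_injective _ _ f.injective).trans (h2 x hx)
  · intro b hb
    obtain ⟨Q, q1, q2, q3⟩ := h3 (f '' b) (mk_image_le.trans hb)
    refine ⟨(fun x : Set β => f ⁻¹' x) '' Q, image_mono q1, mk_image_le.trans_lt q2, ?_⟩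
    intro y hy
    obtain ⟨x, hx, hyx⟩ := q3 (mem_image_of_mem f hy)
    exact ⟨f ⁻¹' x, ⟨x, hx, rfl⟩, hyx⟩

theorem Cv.iff_of_eq {α β : Type u} {κ c : Cardinal.{u}} (hα : #α = #β) : Cv α κ c ↔ Cv β κ c :=
  ⟨fun h => h.mono hα.ge le_rfl, fun h => h.mono hα.le le_rfl⟩

/-- the whole power set as a cover -/
theorem Cv.of_power {α : Type u} {κ c : Cardinal.{u}} (hκ : 1 < κ)
    (h : #{ t : Set α // #t ≤ κ } ≤ c) : Cv α κ c := by
  refine ⟨{t : Set α | #t ≤ κ}, h, fun x hx => hx, fun b hb => ⟨{b}, ?_, ?_, ?_⟩⟩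
  · rintro x rfl
    exact hb
  · rwa [mk_singleton]
  · rw [sUnion_singleton]

theorem cov_le_iff {lam ρ σ c : Cardinal.{u}} (hσ : 2 ≤ σ) :
    cov lam ρ ρ σ ≤ c ↔ ∃ X : Set (Set lam.out), IsCover lam.out ρ ρ σ X ∧ #X ≤ c := by
  unfold cov
  constructor
  · intro h
    have hne : {c | ∃ X : Set (Set lam.out), IsCover lam.out ρ ρ σ X ∧ #X = c}.Nonempty := by
      refine ⟨_, {t : Set lam.out | #t < ρ}, ⟨fun x hx => hx, fun b hb => ⟨{b}, ?_, ?_, ?_⟩⟩, rfl⟩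
      · rintro x rfl
        exact hb
      · rw [mk_singleton]
        exact lt_of_lt_of_le one_lt_two hσ
      · rw [sUnion_singleton]
    obtain ⟨X, hX, hc⟩ := csInf_mem hne
    exact ⟨X, hX, hc.le.trans h⟩
  · rintro ⟨X, hX, hc⟩
    refine (csInf_le' (s := {c | ∃ X : Set (Set lam.out), IsCover lam.out ρ ρ σ X ∧ #X = c})
      (a := #X) ?_).trans hc
    exact ⟨X, hX, rfl⟩

theorem cov_le_iff_Cv {lam κ c : Cardinal.{u}} (hκ : 2 ≤ κ) :
    cov lam (succ κ) (succ κ) κ ≤ c ↔ Cv lam.out κ c := by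
  rw [cov_le_iff hκ]
  constructor
  · rintro ⟨X, ⟨h1, h2⟩, h3⟩
    exact ⟨X, h3, fun x hx => lt_succ_iff.mp (h1 x hx), fun b hb => h2 b (lt_succ_iff.mpr hb)⟩
  · rintro ⟨X, h1, h2, h3⟩
    exact ⟨X, ⟨fun x hx => lt_succ_iff.mpr (h2 x hx), fun b hb => h3 b (lt_succ_iff.mp hb)⟩, h1⟩

theorem isRev_iff {lam κ : Cardinal.{u}} (hκ : 2 ≤ κ) : IsRev lam (succ κ) ↔ Cv lam.out κ lam := by
  constructor
  · rintro ⟨σ, h1, h2, h3⟩
    rw [cov_le_iff h1] at h3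
    obtain ⟨X, ⟨h4, h5⟩, h6⟩ := h3
    refine ⟨X, h6, fun x hx => lt_succ_iff.mp (h4 x hx), fun b hb => ?_⟩
    obtain ⟨Q, q1, q2, q3⟩ := h5 b (lt_succ_iff.mpr hb)
    exact ⟨Q, q1, q2.trans_le (lt_succ_iff.mp h2), q3⟩
  · intro h
    exact ⟨κ, hκ, lt_succ κ, (cov_le_iff_Cv hκ).mpr h⟩

theorem two_le {κ : Cardinal.{u}} (h : κ.IsRegular) : 2 ≤ κ :=
  (Cardinal.natCast_lt_aleph0 (n := 2)).le.trans h.aleph0_le

theorem mem_Exc {χ lam κ : Cardinal.{u}} :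
    κ ∈ Exc χ lam ↔ κ.IsRegular ∧ κ < χ ∧ ¬ Cv lam.out κ lam := by
  unfold Exc
  rw [mem_ofPred_eq]
  constructor
  · rintro ⟨h1, h2, h3⟩
    exact ⟨h1, h2, fun h => h3 ((isRev_iff (two_le h1)).mpr h)⟩
  · rintro ⟨h1, h2, h3⟩
    exact ⟨h1, h2, fun h => h3 ((isRev_iff (two_le h1)).mp h)⟩

/-! ## The step -/

theorem Iio_lt {c : Cardinal.{u}} (i : c.ord.ToType) : #(Iio i) < c := by
  simpa using mk_Iio_lt i

/-- If `cf lam ≠ κ`, covers of the smaller cardinals give a cover of `lam`. -/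
theorem step {lam κ c : Cardinal.{u}} (hinf : ℵ₀ ≤ lam) (hκ : κ.IsRegular)
    (hne : lam.ord.cof ≠ κ) (hc : lam ≤ c) (h : ∀ ν < lam, Cv ν.out κ c) : Cv lam.out κ c := by
  have hL : #(lam.ord.ToType) = lam := mk_ord_toType lam
  rw [Cv.iff_of_eq (β := lam.ord.ToType) (by rw [mk_out, hL])]
  have hloc : ∀ a : lam.ord.ToType, Cv (Iic a) κ c := by
    intro a
    have h1 : #(Iic a) < lam := by
      have h2 : (Iic a : Set lam.ord.ToType) = insert a (Iio a) := by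
        ext y
        simp only [mem_Iic, mem_insert_iff, mem_Iio]
        exact le_iff_eq_or_lt
      rw [h2]
      refine lt_of_le_of_lt mk_insert_le ?_
      exact add_lt_of_lt hinf (Iio_lt a) (one_lt_aleph0.trans_le hinf)
    exact (h _ h1).mono (by rw [mk_out]) le_rfl
  choose X h1 h2 h3 using hloc
  have hcov : ∀ (a : lam.ord.ToType) (b : Set lam.ord.ToType), #b ≤ κ → b ⊆ Iic a →
      ∃ Q : Set (Set lam.ord.ToType),
        Q ⊆ (⋃ a, (fun x : Set (Iic a) => (Subtype.val '' x : Set lam.ord.ToType)) '' X a) ∧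
          #Q < κ ∧ b ⊆ ⋃₀ Q := by
    intro a b hb hba
    obtain ⟨Q, q1, q2, q3⟩ := h3 a (Subtype.val ⁻¹' b)
      ((mk_preimage_of_injective _ _ Subtype.val_injective).trans hb)
    refine ⟨(fun x : Set (Iic a) => (Subtype.val '' x : Set lam.ord.ToType)) '' Q, ?_,
      mk_image_le.trans_lt q2, ?_⟩
    · refine (image_mono q1).trans ?_
      exact subset_iUnion
        (fun a => (fun x : Set (Iic a) => (Subtype.val '' x : Set lam.ord.ToType)) '' X a) a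
    · intro y hy
      obtain ⟨x, hx, hyx⟩ := q3 (show (⟨y, hba hy⟩ : Iic a) ∈ Subtype.val ⁻¹' b from hy)
      exact ⟨_, ⟨x, hx, rfl⟩, ⟨⟨y, hba hy⟩, hyx, rfl⟩⟩
  refine ⟨⋃ a, (fun x : Set (Iic a) => (Subtype.val '' x : Set lam.ord.ToType)) '' X a,
    ?_, ?_, ?_⟩
  · refine mk_iUnion_le_sum_mk.trans ?_
    refine (sum_le_sum _ (fun _ => c) fun a => mk_image_le.trans (h1 a)).trans ?_
    rw [sum_const', hL]
    exact (mul_le_mul_left hc c).trans (mul_eq_self (hinf.trans hc)).le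
  · intro x hx
    obtain ⟨a, y, hy, rfl⟩ := mem_iUnion.mp hx
    exact mk_image_le.trans (h2 a y hy)
  · intro b hb
    rcases lt_or_gt_of_ne hne with hlt | hgt
    · obtain ⟨A, hA, hA2⟩ := exists_cof_eq lam.ord.ToType
      rw [Ordinal.cof_toType] at hA2
      choose Q q1 q2 q3 using fun a : A => hcov a (b ∩ Iic (a : lam.ord.ToType))
        ((mk_le_mk_of_subset inter_subset_left).trans hb) inter_subset_right
      refine ⟨⋃ a, Q a, iUnion_subset q1, ?_, ?_⟩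
      · rw [card_iUnion_lt_iff_forall_of_isRegular hκ (by rw [hA2]; exact hlt)]
        exact q2
      · intro y hy
        obtain ⟨a, ha, hya⟩ := hA y
        obtain ⟨x, hx, hyx⟩ := q3 ⟨a, ha⟩ ⟨hy, hya⟩
        exact ⟨x, mem_iUnion.mpr ⟨⟨a, ha⟩, hx⟩, hyx⟩
    · have hnc : ¬ IsCofinal b := by
        intro hcf
        have h4 := cof_le hcf
        rw [Ordinal.cof_toType] at h4
        exact absurd (h4.trans hb) (not_le.mpr hgt)
      unfold IsCofinal at hnc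
      push Not at hnc
      obtain ⟨a, ha⟩ := hnc
      exact hcov a b hb fun y hy => (ha y hy).le

end Pool.Agent.RevCard
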