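import Pool.Agent.RevCard.Limits

/-!
# Revision cardinals (MP_63fc39_lc): the theorem
-/

set_option autoImplicit false

namespace Pool.Agent.RevCard

open Cardinal Set Order
open scoped Ordinal

universe u

theorem final (χ : Cardinal.{u}) (hχ : χ.IsStrongLimit) :
    (∀ lam κ : Cardinal.{u}, χ ≤ lam → (κ ∈ Exc χ lam ↔ κ.IsRegular ∧ κ < χ ∧
      ∃ μ, χ ≤ μ ∧ μ ≤ lam ∧ μ.ord.cof = κ ∧ lam < cov μ (succ κ) (succ κ) κ)) ∧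
    (∀ ρ lam : Cardinal.{u}, χ ≤ ρ → ρ ≤ lam →
      Exc χ lam ⊆ Exc χ ρ ∪ {κ | ∃ μ, ρ < μ ∧ μ ≤ lam ∧ μ.ord.cof = κ}) ∧
    (∀ β α : Ordinal.{u}, χ ≤ ℵ_ β → α < ω_ ω → (Exc χ (ℵ_ β)).Finite →
      (Exc χ (ℵ_ (β + α))).Finite) ∧
    (∀ γ α : Ordinal.{u}, χ = ℵ_ γ → α < ω_ ω → (Exc χ (ℵ_ (γ + α))).Finite) ∧
    (∀ lam : Cardinal.{u}, χ ≤ lam → lam.IsStrongLimit → Exc χ lam ⊆ {lam.ord.cof}) ∧
    (∀ ρ : Cardinal.{u}, χ ≤ ρ → (∀ κ < χ, ρ ^ κ ≤ ρ) → Exc χ ρ = ∅) ∧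
    (∀ (lam : Cardinal.{u}) (S : Set Cardinal.{u}), χ < lam →
      (∀ ρ < lam, ∃ ρ', ρ ≤ ρ' ∧ ρ' < lam ∧ χ ≤ ρ' ∧ Exc χ ρ' ⊆ S) →
      Exc χ lam ⊆ S ∪ {lam.ord.cof}) ∧
    (∀ lam : Cardinal.{u}, χ < lam → ℵ₀ < lam.ord.cof →
      (∀ ρ < lam, ∃ ρ', ρ ≤ ρ' ∧ ρ' < lam ∧ χ ≤ ρ' ∧ (Exc χ ρ').Finite) →
      (Exc χ lam).Finite) ∧
    (∀ lam : Cardinal.{u}, χ ≤ lam → (Exc χ lam).Infinite →
      (∀ ρ, χ ≤ ρ → ρ < lam → (Exc χ ρ).Finite) →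
      lam.ord.cof = ℵ₀ ∧ ∃ γ β : Ordinal.{u}, χ = ℵ_ γ ∧ 0 < β ∧ lam = ℵ_ (γ + ω_ ω * β)) ∧
    ((∃ lam : Cardinal.{u}, χ ≤ lam ∧ (Exc χ lam).Infinite) ↔
      ∃ κ μ : ℕ → Cardinal.{u}, StrictMono κ ∧ StrictMono μ ∧ ∀ n, (κ n).IsRegular ∧ κ n < χ ∧
        χ ≤ μ n ∧ (μ n).ord.cof = κ n ∧
        (⨆ m, μ m) < cov (μ n) (succ (κ n)) (succ (κ n)) (κ n)) := by
  refine ⟨fun lam κ h => exc_iff hχ h, fun ρ lam h1 h2 => ?_, fun β α h1 h2 h3 => ?_,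
    fun γ α h1 h2 => ?_, fun lam h1 h2 => exc_strongLimit hχ h1 h2,
    fun ρ h1 h2 => exc_pow hχ h1 h2, fun lam S h1 h2 => exc_limit hχ h1 S h2,
    fun lam h1 h2 h3 => exc_closed hχ h1 h2 h3, fun lam h1 h2 h3 => ⟨least_cof hχ h1 h2 h3, ?_⟩,
    fails_iff hχ⟩
  · refine (exc_subset hχ h1 h2).trans (union_subset_union_right _ ?_)
    rintro κ ⟨_, _, h⟩
    exact h
  · rw [← ord_aleph] at h2
    exact exc_add hχ β α h1 h2 h3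
  · rw [← ord_aleph] at h2
    refine exc_add hχ γ α h1.le h2 ?_
    rw [← h1]
    exact (finite_singleton _).subset (exc_self hχ)
  · have h := least_form hχ h1 h2 h3
    rw [ord_aleph] at h
    exact h

end Pool.Agent.RevCard
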