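import Pool.Agent.RevCard.Seq

/-!
# Revision cardinals (MP_63fc39_lc): limits
-/

set_option autoImplicit false

namespace Pool.Agent.RevCard

open Cardinal Set Order

universe u

theorem exc_limit {χ lam : Cardinal.{u}} (hχ : χ.IsStrongLimit) (hle : χ < lam)
    (S : Set Cardinal.{u})
    (h : ∀ ρ < lam, ∃ ρ', ρ ≤ ρ' ∧ ρ' < lam ∧ χ ≤ ρ' ∧ Exc χ ρ' ⊆ S) :
    Exc χ lam ⊆ S ∪ {lam.ord.cof} := by
  intro κ hκ
  by_cases hne : lam.ord.cof = κ
  · exact Or.inr hne.symm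
  · obtain ⟨ρ₀, h1, h2, h3⟩ := eventually_exc hχ hle hκ hne
    obtain ⟨ρ', h4, h5, h6, h7⟩ := h ρ₀ h2
    exact Or.inl (h7 (h3 ρ' h4 h5))

theorem exc_closed {χ lam : Cardinal.{u}} (hχ : χ.IsStrongLimit) (hle : χ < lam)
    (hcof : ℵ₀ < lam.ord.cof)
    (h : ∀ ρ < lam, ∃ ρ', ρ ≤ ρ' ∧ ρ' < lam ∧ χ ≤ ρ' ∧ (Exc χ ρ').Finite) :
    (Exc χ lam).Finite := by
  by_contra hinf
  have hinf2 : (Exc χ lam \ {lam.ord.cof}).Infinite :=
    Set.Infinite.sdiff hinf (finite_singleton _)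
  let e := hinf2.natEmbedding
  have h1 : ∀ n : ℕ, ∃ ρ₀, χ ≤ ρ₀ ∧ ρ₀ < lam ∧ ∀ ρ, ρ₀ ≤ ρ → ρ < lam → (e n).1 ∈ Exc χ ρ := by
    intro n
    exact eventually_exc hχ hle (e n).2.1 fun h => (e n).2.2 h.symm
  choose ρ r1 r2 r3 using h1
  have h2 : (⨆ n : ULift.{u} ℕ, ρ n.down) < lam := by
    refine Cardinal.iSup_lt_of_lt_cof_ord ?_ fun n => r2 n.down
    simpa using hcof
  have h3 : ∀ n, ρ n ≤ ⨆ n : ULift.{u} ℕ, ρ n.down := fun n =>
    le_ciSup (bddAbove_of_small (s := range fun n : ULift.{u} ℕ => ρ n.down)) (ULift.up n)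
  obtain ⟨ρ', h4, h5, h6, h7⟩ := h _ h2
  have h8 : (Exc χ ρ').Infinite := by
    refine Set.infinite_of_injective_forall_mem (f := fun n : ℕ => (e n).1) ?_ fun n =>
      r3 n _ ((h3 n).trans h4) h5
    intro a b hab
    exact e.injective (Subtype.ext hab)
  exact h8 h7

theorem exc_strongLimit {χ lam : Cardinal.{u}} (hχ : χ.IsStrongLimit) (hle : χ ≤ lam)
    (hl : lam.IsStrongLimit) : Exc χ lam ⊆ {lam.ord.cof} := by
  rcases eq_or_lt_of_le hle with rfl | hlt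
  · exact exc_self hχ
  · have h := exc_limit hχ hlt ∅ fun ρ hρ => by
      have h1 : max χ ρ < lam := max_lt hlt hρ
      refine ⟨2 ^ (max χ ρ), ?_, hl.isStrongPrelimit h1, ?_, ?_⟩
      · exact (le_max_right _ _).trans (cantor _).le
      · exact (le_max_left _ _).trans (cantor _).le
      · rw [exc_pow hχ ((le_max_left χ ρ).trans (cantor _).le)]
        intro κ hκ
        rw [← power_mul]
        refine power_le_power_left two_ne_zero ?_
        exact (mul_le_mul_right (hκ.le.trans (le_max_left χ ρ)) _).trans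
          (mul_eq_self (hχ.aleph0_le.trans (le_max_left χ ρ))).le
    simpa using h

end Pool.Agent.RevCard
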