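import Pool.Agent.RevCard.Basic

/-!
# Revision cardinals (MP_63fc39_lc): the exceptional set
-/

set_option autoImplicit false

namespace Pool.Agent.RevCard

open Cardinal Set Order

universe u

/-- below a strong limit cardinal the power sets are small -/
theorem Cv.small {χ κ ν c : Cardinal.{u}} (hχ : χ.IsStrongLimit) (hκ : κ.IsRegular) (hν : ν < χ)
    (hc : χ ≤ c) : Cv ν.out κ c := by
  refine Cv.of_power (Cardinal.one_lt_two.trans_le (two_le hκ)) ((mk_subtype_le _).trans ?_)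
  rw [mk_set, mk_out]
  exact (hχ.isStrongPrelimit hν).le.trans hc

theorem Cv.of_forall {χ lam κ : Cardinal.{u}} (hχ : χ.IsStrongLimit) (hκ : κ.IsRegular)
    (hle : χ ≤ lam)
    (h : ∀ μ, χ ≤ μ → μ ≤ lam → μ.ord.cof = κ → Cv μ.out κ lam) (ν : Cardinal.{u}) :
    ν ≤ lam → Cv ν.out κ lam := by
  induction ν using WellFoundedLT.induction with
  | ind ν ih =>
    intro hν
    by_cases h1 : ν < χ
    · exact Cv.small hχ hκ h1 hle
    · rw [not_lt] at h1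
      by_cases h2 : ν.ord.cof = κ
      · exact h ν h1 hν h2
      · exact step (hχ.aleph0_le.trans h1) hκ h2 hν fun ρ hρ => ih ρ hρ (hρ.le.trans hν)

/-- exact description of the exceptions -/
theorem exc_iff {χ lam κ : Cardinal.{u}} (hχ : χ.IsStrongLimit) (hle : χ ≤ lam) :
    κ ∈ Exc χ lam ↔ κ.IsRegular ∧ κ < χ ∧ ∃ μ, χ ≤ μ ∧ μ ≤ lam ∧ μ.ord.cof = κ ∧
      lam < cov μ (succ κ) (succ κ) κ := by
  rw [mem_Exc]
  constructor
  · rintro ⟨h1, h2, h3⟩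
    refine ⟨h1, h2, ?_⟩
    by_contra h4
    push Not at h4
    refine h3 (Cv.of_forall hχ h1 hle (fun μ m1 m2 m3 => ?_) lam le_rfl)
    exact (cov_le_iff_Cv (two_le h1)).mp (h4 μ m1 m2 m3)
  · rintro ⟨h1, h2, μ, m1, m2, m3, m4⟩
    refine ⟨h1, h2, fun h => ?_⟩
    refine absurd m4 (not_lt.mpr ((cov_le_iff_Cv (two_le h1)).mpr ?_))
    exact h.mono (by rw [mk_out, mk_out]; exact m2) le_rfl

theorem exc_subset {χ ρ lam : Cardinal.{u}} (hχ : χ.IsStrongLimit) (h1 : χ ≤ ρ) (h2 : ρ ≤ lam) :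
    Exc χ lam ⊆ Exc χ ρ ∪ {κ | κ < χ ∧ κ.IsRegular ∧ ∃ μ, ρ < μ ∧ μ ≤ lam ∧ μ.ord.cof = κ} := by
  intro κ hκ
  by_contra hn
  rw [mem_union, not_or] at hn
  obtain ⟨hn1, hn2⟩ := hn
  have h0 := mem_Exc.mp hκ
  obtain ⟨r, h3, μ, m1, m2, m3, m4⟩ := (exc_iff hχ (h1.trans h2)).mp hκ
  have h5 : Cv ρ.out κ ρ := by
    by_contra h5
    exact hn1 (mem_Exc.mpr ⟨r, h3, h5⟩)
  rcases le_or_gt μ ρ with h6 | h6
  · refine absurd m4 (not_lt.mpr ((cov_le_iff_Cv (two_le r)).mpr ?_))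
    exact h5.mono (by rw [mk_out, mk_out]; exact h6) h2
  · exact hn2 ⟨h3, r, μ, h6, m2, m3⟩

theorem exc_self {χ : Cardinal.{u}} (hχ : χ.IsStrongLimit) : Exc χ χ ⊆ {χ.ord.cof} := by
  intro κ hκ
  obtain ⟨h1, h2, μ, m1, m2, m3, m4⟩ := (exc_iff hχ le_rfl).mp hκ
  rw [mem_singleton_iff, ← m3, le_antisymm m2 m1]

theorem exc_pow {χ ρ : Cardinal.{u}} (hχ : χ.IsStrongLimit) (h1 : χ ≤ ρ)
    (h2 : ∀ κ < χ, ρ ^ κ ≤ ρ) : Exc χ ρ = ∅ := by
  rw [eq_empty_iff_forall_notMem]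
  intro κ hκ
  obtain ⟨r, h3, h4⟩ := mem_Exc.mp hκ
  refine h4 (Cv.of_power (Cardinal.one_lt_two.trans_le (two_le r)) ?_)
  have hinf : Infinite ρ.out := by
    rw [infinite_iff, mk_out]
    exact hχ.aleph0_le.trans h1
  refine (mk_bounded_set_le_of_infinite _ _).trans ?_
  rw [mk_out]
  exact h2 κ h3

/-! ## Cofinalities -/

theorem finite_le_aleph (k : ℕ) : {κ : Cardinal.{u} | ℵ₀ ≤ κ ∧ κ ≤ ℵ_ (k : Ordinal.{u})}.Finite := by
  refine (Set.finite_Iic k |>.image fun i : ℕ => ℵ_ (i : Ordinal.{u})).subset ?_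
  rintro κ ⟨h1, h2⟩
  obtain ⟨o, rfl⟩ := mem_range_aleph_iff.mpr h1
  rw [aleph_le_aleph] at h2
  obtain ⟨n, rfl⟩ := Ordinal.lt_omega0.mp (h2.trans_lt (Ordinal.natCast_lt_omega0 k))
  exact ⟨n, Nat.cast_le.mp h2, rfl⟩

theorem finite_cofs {χ : Cardinal.{u}} (β α : Ordinal.{u}) (h1 : χ ≤ ℵ_ β)
    (hα : α < (ℵ_ Ordinal.omega0).ord) :
    {κ | κ < χ ∧ κ.IsRegular ∧ ∃ μ, ℵ_ β < μ ∧ μ ≤ ℵ_ (β + α) ∧ μ.ord.cof = κ}.Finite := by
  have h2 : α.card < ℵ_ Ordinal.omega0 := lt_ord.mp hα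
  have h3 : ∃ k : ℕ, α.card ≤ ℵ_ (k : Ordinal.{u}) := by
    rcases lt_or_ge α.card ℵ₀ with h | h
    · exact ⟨0, h.le.trans (aleph0_le_aleph _)⟩
    · obtain ⟨o, ho⟩ := mem_range_aleph_iff.mpr h
      rw [← ho, aleph_lt_aleph] at h2
      obtain ⟨n, rfl⟩ := Ordinal.lt_omega0.mp h2
      exact ⟨n, ho.ge⟩
  obtain ⟨k, hk⟩ := h3
  refine (finite_le_aleph k).subset ?_
  rintro κ ⟨k1, k2, μ, m1, m2, m3⟩
  refine ⟨k2.aleph0_le, ?_⟩
  obtain ⟨o, rfl⟩ := mem_range_aleph_iff.mpr ((aleph0_le_aleph β).trans m1.le)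
  rw [aleph_lt_aleph] at m1
  rw [aleph_le_aleph] at m2
  obtain ⟨γ, rfl⟩ := exists_add_of_le m1.le
  rw [add_le_add_iff_left] at m2
  rw [ord_aleph] at m3
  rcases Ordinal.zero_or_succ_or_isSuccLimit γ with h | ⟨δ, rfl⟩ | h
  · rw [h, add_zero] at m1
    exact absurd m1 (lt_irrefl _)
  · exfalso
    rw [← ord_aleph, Order.succ_eq_add_one, ← add_assoc, (isRegular_aleph_add_one _).cof_ord] at m3
    have h4 : ℵ_ β < ℵ_ (β + δ + 1) := by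
      rw [aleph_lt_aleph, add_assoc, ← Order.succ_eq_add_one]
      exact m1
    rw [m3] at h4
    exact absurd (h4.trans k1) (not_lt.mpr h1)
  · rw [Ordinal.cof_omega (Ordinal.isSuccLimit_add β h), Ordinal.cof_add β h.ne_bot] at m3
    rw [← m3]
    exact ((Ordinal.cof_le_card γ).trans (Ordinal.card_le_card m2)).trans hk

theorem exc_add {χ : Cardinal.{u}} (hχ : χ.IsStrongLimit) (β α : Ordinal.{u}) (h1 : χ ≤ ℵ_ β)
    (hα : α < (ℵ_ Ordinal.omega0).ord) (h : (Exc χ (ℵ_ β)).Finite) :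
    (Exc χ (ℵ_ (β + α))).Finite := by
  refine (h.union (finite_cofs β α h1 hα)).subset (exc_subset hχ h1 ?_)
  rw [aleph_le_aleph]
  exact le_self_add

/-! ## The least failure -/

theorem eventually_exc {χ lam κ : Cardinal.{u}} (hχ : χ.IsStrongLimit) (hle : χ < lam)
    (hκ : κ ∈ Exc χ lam) (hne : lam.ord.cof ≠ κ) :
    ∃ ρ₀, χ ≤ ρ₀ ∧ ρ₀ < lam ∧ ∀ ρ, ρ₀ ≤ ρ → ρ < lam → κ ∈ Exc χ ρ := by
  by_contra hn
  push Not at hn
  obtain ⟨r, h3, h4⟩ := mem_Exc.mp hκ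
  refine h4 (step (hχ.aleph0_le.trans hle.le) r hne le_rfl fun ν hν => ?_)
  obtain ⟨ρ, h5, h6, h7⟩ := hn (max χ ν) (le_max_left _ _) (max_lt hle hν)
  have h8 : Cv ρ.out κ ρ := by
    by_contra h8
    exact h7 (mem_Exc.mpr ⟨r, h3, h8⟩)
  exact h8.mono (by rw [mk_out, mk_out]; exact (le_max_right _ _).trans h5) h6.le

theorem aleph0_le_cof_of {c : Cardinal.{u}} (h : ℵ₀ ≤ c) : ℵ₀ ≤ c.ord.cof := by
  have h1 := Ordinal.one_lt_cof_iff.mpr (isSuccLimit_ord h)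
  by_contra h2
  exact absurd (Ordinal.cof_lt_aleph0_iff.mp (not_le.mp h2)) (not_le.mpr h1)

theorem least_cof {χ lam : Cardinal.{u}} (hχ : χ.IsStrongLimit) (hle : χ ≤ lam)
    (hinf : (Exc χ lam).Infinite) (hlt : ∀ ρ, χ ≤ ρ → ρ < lam → (Exc χ ρ).Finite) :
    lam.ord.cof = ℵ₀ := by
  have hlim : ℵ₀ ≤ lam.ord.cof :=
    aleph0_le_cof_of (hχ.aleph0_le.trans hle)
  have hne : χ ≠ lam := by
    rintro rfl
    exact hinf ((finite_singleton _).subset (exc_self hχ))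
  have hlt' : χ < lam := lt_of_le_of_ne hle hne
  by_contra hc
  have hc' : ℵ₀ < lam.ord.cof := lt_of_le_of_ne hlim (Ne.symm hc)
  have hinf2 : (Exc χ lam \ {lam.ord.cof}).Infinite := hinf.sdiff (finite_singleton _)
  let e := hinf2.natEmbedding
  have h1 : ∀ n : ℕ, ∃ ρ₀, χ ≤ ρ₀ ∧ ρ₀ < lam ∧ ∀ ρ, ρ₀ ≤ ρ → ρ < lam →
      (e n).1 ∈ Exc χ ρ := by
    intro n
    exact eventually_exc hχ hlt' (e n).2.1 fun h => (e n).2.2 h.symm
  choose ρ r1 r2 r3 using h1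
  have h2 : (⨆ n : ULift.{u} ℕ, ρ n.down) < lam := by
    refine Cardinal.iSup_lt_of_lt_cof_ord ?_ fun n => r2 n.down
    simpa using hc'
  have h3 : ∀ n, ρ n ≤ ⨆ n : ULift.{u} ℕ, ρ n.down := fun n =>
    le_ciSup (bddAbove_of_small (s := range fun n : ULift.{u} ℕ => ρ n.down)) (ULift.up n)
  have h4 : (Exc χ (⨆ n : ULift.{u} ℕ, ρ n.down)).Infinite := by
    refine Set.infinite_of_injective_forall_mem
      (f := fun n : ℕ => (e n).1) ?_ fun n =>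
        r3 n _ (h3 n) h2
    intro a b hab
    exact e.injective (Subtype.ext hab)
  exact h4 (hlt _ ((r1 0).trans (h3 0)) h2)

theorem least_form {χ lam : Cardinal.{u}} (hχ : χ.IsStrongLimit) (hle : χ ≤ lam)
    (hinf : (Exc χ lam).Infinite) (hlt : ∀ ρ, χ ≤ ρ → ρ < lam → (Exc χ ρ).Finite) :
    ∃ γ β : Ordinal.{u}, χ = ℵ_ γ ∧ 0 < β ∧ lam = ℵ_ (γ + (ℵ_ Ordinal.omega0).ord * β) := by
  obtain ⟨γ, rfl⟩ := mem_range_aleph_iff.mpr hχ.aleph0_le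
  obtain ⟨o, rfl⟩ := mem_range_aleph_iff.mpr (hχ.aleph0_le.trans hle)
  rw [aleph_le_aleph] at hle
  obtain ⟨α, rfl⟩ := exists_add_of_le hle
  have hω : (ℵ_ Ordinal.omega0).ord ≠ (0 : Ordinal.{u}) := by
    rw [Ne, ord_eq_zero]
    exact (aleph_pos _).ne'
  have hdm := Ordinal.div_add_mod α (ℵ_ Ordinal.omega0).ord
  have hm := Ordinal.mod_lt α hω
  generalize hβ : α / (ℵ_ Ordinal.omega0).ord = β at hdm
  generalize hr : α % (ℵ_ Ordinal.omega0).ord = r at hdm hm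
  have hr0 : r = 0 := by
    by_contra hr0
    refine hinf ?_
    rw [← hdm, ← add_assoc]
    refine exc_add hχ _ _ (aleph_le_aleph.mpr le_self_add) hm (hlt _ (aleph_le_aleph.mpr le_self_add) ?_)
    rw [← hdm, aleph_lt_aleph, ← add_assoc]
    exact lt_add_of_pos_right _ (pos_iff_ne_zero.mpr hr0)
  rw [hr0, add_zero] at hdm
  refine ⟨γ, β, rfl, ?_, by rw [hdm]⟩
  rw [pos_iff_ne_zero]
  rintro rfl
  rw [mul_zero] at hdm
  rw [← hdm, add_zero] at hinf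
  exact hinf ((finite_singleton _).subset (exc_self hχ))

end Pool.Agent.RevCard
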