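import Pool.Agent.RevCard.Main

/-!
# Revision cardinals (MP_63fc39_lc): the failure of the statement as a sequence of singular cardinals
-/

set_option autoImplicit false

namespace Pool.Agent.RevCard

open Cardinal Set Order

universe u

/-- an injective sequence in a well-order has a strictly increasing subsequence -/
theorem exists_strictMono {α : Type*} [LinearOrder α] [WellFoundedLT α] (f : ℕ → α)
    (hf : ∀ m, {n | f n ≤ f m}.Finite ∨ Function.Injective f) :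
    ∃ g : ℕ → ℕ, StrictMono g ∧ StrictMono (f ∘ g) := by
  obtain ⟨g, hg⟩ := exists_increasing_or_nonincreasing_subseq (· < ·) f
  rcases hg with hg | hg
  · exact ⟨g, g.strictMono, fun m n h => hg m n h⟩
  · exfalso
    rcases hf (g 0) with h | h
    · refine h.not_infinite (Set.infinite_of_injective_forall_mem (f := fun n => g n)
        g.injective fun n => ?_)
      rcases Nat.eq_zero_or_pos n with h0 | h0
      · rw [h0]
        exact le_rfl
      · exact not_lt.mp (hg 0 n h0)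
    · have h1 : StrictAnti (f ∘ g) := by
        intro m n hmn
        refine lt_of_le_of_ne (not_lt.mp (hg m n hmn)) fun he => ?_
        exact hmn.ne' (g.injective (h he))
      exact (RelEmbedding.wellFounded_iff_isEmpty.mp (wellFounded_lt (α := α))).elim
        (RelEmbedding.ofMonotone (f ∘ g) fun a b hab => h1 hab)

/-- a failure gives a sequence of singular cardinals with large covering numbers -/
theorem exists_seq {χ lam : Cardinal.{u}} (hχ : χ.IsStrongLimit) (hle : χ ≤ lam)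
    (hinf : (Exc χ lam).Infinite) (hlt : ∀ ρ, χ ≤ ρ → ρ < lam → (Exc χ ρ).Finite) :
    ∃ κ μ : ℕ → Cardinal.{u}, StrictMono κ ∧ StrictMono μ ∧ ∀ n, (κ n).IsRegular ∧ κ n < χ ∧
      χ ≤ μ n ∧ μ n < lam ∧ (μ n).ord.cof = κ n ∧
      lam < cov (μ n) (succ (κ n)) (succ (κ n)) (κ n) := by
  have hcof := least_cof hχ hle hinf hlt
  have hinf2 : (Exc χ lam \ {ℵ₀}).Infinite := hinf.sdiff (finite_singleton _)
  let e := hinf2.natEmbedding
  obtain ⟨g, hg, hg2⟩ := exists_strictMono (fun n => (e n).1) fun _ => Or.inr fun a b hab =>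
    e.injective (Subtype.ext hab)
  have h1 : ∀ n, ∃ μ, χ ≤ μ ∧ μ < lam ∧ μ.ord.cof = (e (g n)).1 ∧
      lam < cov μ (succ (e (g n)).1) (succ (e (g n)).1) (e (g n)).1 := by
    intro n
    obtain ⟨_, _, μ, m1, m2, m3, m4⟩ := (exc_iff hχ hle).mp (e (g n)).2.1
    refine ⟨μ, m1, lt_of_le_of_ne m2 ?_, m3, m4⟩
    rintro rfl
    exact (e (g n)).2.2 (m3.symm.trans hcof)
  choose μ m1 m2 m3 m4 using h1
  have hreg : ∀ n, (e n).1.IsRegular ∧ (e n).1 < χ := fun n =>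
    ⟨(mem_Exc.mp (e n).2.1).1, (mem_Exc.mp (e n).2.1).2.1⟩
  obtain ⟨k, hk, hk2⟩ := exists_strictMono μ (fun m => Or.inl (by
    refine Set.Finite.of_finite_image ((hlt (μ m) (m1 m) (m2 m)).subset ?_)
      (f := fun n => (e (g n)).1) hg2.injective.injOn
    rintro _ ⟨n, hn, rfl⟩
    exact (exc_iff hχ (m1 m)).mpr ⟨(hreg _).1, (hreg _).2, μ n, m1 n, hn, m3 n,
      (m2 m).trans (m4 n)⟩))
  exact ⟨fun n => (e (g (k n))).1, μ ∘ k, fun a b hab => hg2 (hk hab), hk2, fun n =>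
    ⟨(hreg _).1, (hreg _).2, m1 _, m2 _, m3 _, m4 _⟩⟩

/-- such a sequence gives a failure -/
theorem exc_of_seq {χ : Cardinal.{u}} (hχ : χ.IsStrongLimit) (κ μ : ℕ → Cardinal.{u})
    (hκ : StrictMono κ)
    (h : ∀ n, (κ n).IsRegular ∧ κ n < χ ∧ χ ≤ μ n ∧ (μ n).ord.cof = κ n ∧
      (⨆ m, μ m) < cov (μ n) (succ (κ n)) (succ (κ n)) (κ n)) :
    χ ≤ (⨆ m, μ m) ∧ (Exc χ (⨆ m, μ m)).Infinite := by
  have h1 : ∀ n, μ n ≤ ⨆ m, μ m := fun n => le_ciSup (bddAbove_of_small (s := range μ)) n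
  have h0 : χ ≤ ⨆ m, μ m := (h 0).2.2.1.trans (h1 0)
  refine ⟨h0, Set.infinite_of_injective_forall_mem hκ.injective fun n => ?_⟩
  obtain ⟨a1, a2, a3, a4, a5⟩ := h n
  exact (exc_iff hχ h0).mpr ⟨a1, a2, μ n, a3, h1 n, a4, a5⟩

theorem fails_iff {χ : Cardinal.{u}} (hχ : χ.IsStrongLimit) :
    (∃ lam, χ ≤ lam ∧ (Exc χ lam).Infinite) ↔
      ∃ κ μ : ℕ → Cardinal.{u}, StrictMono κ ∧ StrictMono μ ∧ ∀ n, (κ n).IsRegular ∧ κ n < χ ∧
        χ ≤ μ n ∧ (μ n).ord.cof = κ n ∧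
        (⨆ m, μ m) < cov (μ n) (succ (κ n)) (succ (κ n)) (κ n) := by
  constructor
  · intro h
    have hmin := WellFounded.has_min (wellFounded_lt (α := Cardinal.{u}))
      {lam | χ ≤ lam ∧ (Exc χ lam).Infinite} h
    obtain ⟨lam, ⟨h1, h2⟩, h3⟩ := hmin
    have h4 : ∀ ρ, χ ≤ ρ → ρ < lam → (Exc χ ρ).Finite := fun ρ h5 h6 => by
      by_contra h7
      exact h3 ρ ⟨h5, h7⟩ h6
    obtain ⟨κ, μ, a1, a2, a3⟩ := exists_seq hχ h1 h2 h4
    refine ⟨κ, μ, a1, a2, fun n => ?_⟩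
    obtain ⟨b1, b2, b3, b4, b5, b6⟩ := a3 n
    refine ⟨b1, b2, b3, b5, lt_of_le_of_lt (ciSup_le' fun m => ?_) b6⟩
    exact (a3 m).2.2.2.1.le
  · rintro ⟨κ, μ, h1, _, h2⟩
    obtain ⟨h3, h4⟩ := exc_of_seq hχ κ μ h1 h2
    exact ⟨_, h3, h4⟩

end Pool.Agent.RevCard
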